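import Pool.Agent.U985.UI.ThreeM
import Pool.Agent.U985.UK.ManyU

/-! Gaussian averages of the squares of the Hecke eigenvalues of isobaric sums over a number field: an upper bound,
uniform in the representation. -/

set_option autoImplicit false

namespace Pool.Agent.U985.UI

open Complex MeasureTheory Filter Topology NumberField IsDedekindDomain
open Pool.Agent.N846.DU
open Pool.Agent.N846.DT (rpow_exp)
open Pool.Agent.U985.UT (fd gaussB JG JG_nonneg)
open Pool.Agent.W189.TP (DS)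

/-- polynomial growth in vertical strips -/
def Gr (F : ℂ → ℂ) : Prop :=
  ∀ a b : ℝ, ∃ C A : ℝ, ∀ s : ℂ, a ≤ s.re → s.re ≤ b → ‖F s‖ ≤ C * (1 + |s.im|) ^ A

theorem gr_mul {F G : ℂ → ℂ} (hF : Gr F) (hG : Gr G) : Gr fun s => F s * G s := by
  intro a b
  obtain ⟨C1, A1, h1⟩ := hF a b
  obtain ⟨C2, A2, h2⟩ := hG a b
  refine ⟨|C1| * |C2|, A1 + A2, fun s ha hb => ?_⟩
  have h0 : (0 : ℝ) < 1 + |s.im| := by positivity
  rw [norm_mul, Real.rpow_add h0]
  have h3 : ‖F s‖ ≤ |C1| * (1 + |s.im|) ^ A1 :=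
    (h1 s ha hb).trans (mul_le_mul_of_nonneg_right (le_abs_self _) (by positivity))
  have h4 : ‖G s‖ ≤ |C2| * (1 + |s.im|) ^ A2 :=
    (h2 s ha hb).trans (mul_le_mul_of_nonneg_right (le_abs_self _) (by positivity))
  calc ‖F s‖ * ‖G s‖ ≤ (|C1| * (1 + |s.im|) ^ A1) * (|C2| * (1 + |s.im|) ^ A2) :=
        mul_le_mul h3 h4 (norm_nonneg _) (by positivity)
    _ = _ := by ring

theorem gr_prod {ι : Type} (T : Finset ι) {F : ι → ℂ → ℂ} (hF : ∀ i, Gr (F i)) : Gr fun s => ∏ i ∈ T, F i s := by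
  classical
  induction T using Finset.induction_on with
  | empty =>
    intro a b
    exact ⟨1, 0, fun s _ _ => by simp⟩
  | insert i T hi ih =>
    have := gr_mul (hF i) ih
    refine fun a b => ?_
    obtain ⟨C, A, h⟩ := this a b
    exact ⟨C, A, fun s ha hb => by
      simp only [Finset.prod_insert hi]
      exact h s ha hb⟩

theorem summ_pair {K : Type} [Field K] [NumberField K] {u w : VX K → ℂ}
    (hu : ∀ σ : ℝ, 1 < σ → Summable fun x : VX K => ‖u x‖ ^ 2 * Real.exp (-(σ * LV x)))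
    (hw : ∀ σ : ℝ, 1 < σ → Summable fun x : VX K => ‖w x‖ ^ 2 * Real.exp (-(σ * LV x)))
    {s : ℂ} (hs : 1 < s.re) :
    Summable fun x : VX K => u x * (starRingEnd ℂ) (w x) * Complex.exp (-(s * (LV x : ℂ))) := by
  refine Summable.of_norm_bounded (((hu _ hs).add (hw _ hs)).div_const 2) fun x => ?_
  rw [norm_mul, norm_mul, RCLike.norm_conj, Complex.norm_exp]
  have h1 : (-(s * (LV x : ℂ))).re = -(s.re * LV x) := by simp
  rw [h1]
  have h2 : 0 < Real.exp (-(s.re * LV x)) := Real.exp_pos _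
  nlinarith [sq_nonneg (‖u x‖ - ‖w x‖)]

/-- the sum of several vectors -/
theorem logRS_sum {K : Type} [Field K] [NumberField K] {d : ℕ} {u : Fin d → VX K → ℂ}
    (hu : ∀ i, ∀ σ : ℝ, 1 < σ → Summable fun x : VX K => ‖u i x‖ ^ 2 * Real.exp (-(σ * LV x)))
    {s : ℂ} (hs : 1 < s.re) :
    ∑ i, ∑ j, logRS (u i) (u j) s = DS (fun x : VX K => ‖∑ i, u i x‖ ^ 2) LV s := by
  unfold logRS DS
  have h1 : ∀ i, ∑ j, ∑' x, u i x * (starRingEnd ℂ) (u j x) * Complex.exp (-(s * (LV x : ℂ))) =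
      ∑' x, ∑ j, u i x * (starRingEnd ℂ) (u j x) * Complex.exp (-(s * (LV x : ℂ))) := fun i =>
    (Summable.tsum_finsetSum fun j _ => summ_pair (hu i) (hu j) hs).symm
  simp_rw [h1]
  rw [← Summable.tsum_finsetSum fun i _ => summable_sum fun j _ => summ_pair (hu i) (hu j) hs]
  refine tsum_congr fun x => ?_
  have h2 : ((‖∑ i, u i x‖ ^ 2 : ℝ) : ℂ) = (∑ i, u i x) * (starRingEnd ℂ) (∑ i, u i x) := by
    rw [Complex.mul_conj, Complex.normSq_eq_norm_sq]
  rw [h2, map_sum, Finset.sum_mul_sum, Finset.sum_mul]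
  refine Finset.sum_congr rfl fun i _ => ?_
  rw [Finset.sum_mul]

theorem sq_sum_le {d : ℕ} (z : Fin d → ℂ) : ‖∑ i, z i‖ ^ 2 ≤ d * ∑ i, ‖z i‖ ^ 2 := by
  have h1 : ‖∑ i, z i‖ ≤ ∑ i, ‖z i‖ := norm_sum_le _ _
  have h2 := sq_sum_le_card_mul_sum_sq (s := (Finset.univ : Finset (Fin d))) (f := fun i => ‖z i‖)
  rw [Finset.card_univ, Fintype.card_fin] at h2
  exact (pow_le_pow_left₀ (norm_nonneg _) h1 2).trans h2

theorem formI (K : Type) [Field K] [NumberField K] (d n₀ N₀ : ℕ) (hd : 1 ≤ d) {ε : ℝ} (hε : 0 < ε) :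
    ∃ A : ℝ, 0 ≤ A ∧ ∀ (n : Fin d → ℕ) (N : Fin d → Fin d → ℕ), (∀ i, n i ≤ n₀) → (∀ i j, N i j ≤ N₀) →
    ∀ (S : Finset (HeightOneSpectrum (𝓞 K))) (α : ∀ i, HeightOneSpectrum (𝓞 K) → Fin (n i) → ℂ)
      (u : Fin d → VX K → ℂ) (q : Fin d → Fin d → ℝ) (κ : ∀ i j, Fin (N i j) → ℂ),
      (∀ i, Rep (n i) S (α i) (u i)) →
      (∀ i j, RS (u i) (u j) (q i j) (κ i j) (if i = j then 1 else 0)) →
      ∀ s : ℝ, 1 ≤ s → ∀ T : Finset (VX K),
        ∑ x ∈ T, ‖∑ i, u i x‖ ^ 2 * LV x * Real.exp (-LV x) * Real.exp (-(LV x) ^ 2 / (2 * s ^ 2)) ≤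
          d * (√(Real.pi / 2) * s) + (1 / 4 + ε) * Real.log (∏ i, ∏ j, (q i j * ∏ l, (1 + ‖κ i j l‖))) + A := by
  have hd0 : (0 : ℝ) < d := by exact_mod_cast hd
  set σ₁ : ℝ := min 1 (ε / 2) with hσ₁
  have hσ : 0 < σ₁ := lt_min one_pos (by positivity)
  have hσ1 : σ₁ ≤ 1 := min_le_left _ _
  have hσε : σ₁ ≤ ε / 2 := min_le_right _ _
  set ε₂ : ℝ := ε / (2 * (d : ℝ) ^ 2) with hε₂
  have hε₂0 : 0 < ε₂ := by positivity
  have hl := fun a : ℕ => left gam a σ₁ hσ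
  choose Cl0 hCl0 hleft using hl
  set Cl : ℝ := ∑ a ∈ Finset.range (N₀ + 1), Cl0 a with hCl
  have hClle : ∀ a ≤ N₀, Cl0 a ≤ Cl := fun a ha =>
    Finset.single_le_sum (fun a _ => (hCl0 a).le) (Finset.mem_range.2 (by omega))
  have hdg := fun a : ℕ × ℕ => Pool.Agent.U828.DU.D.diag (left gam) K a.1 a.2 σ₁ ε₂ hσ hε₂0
  choose Cd0 hCd0 hdiag using hdg
  set Cd : ℝ := ∑ a ∈ Finset.range (n₀ + 1) ×ˢ Finset.range (N₀ + 1), Cd0 a with hCd
  have hCdle : ∀ a b, a ≤ n₀ → b ≤ N₀ → Cd0 (a, b) ≤ Cd := fun a b ha hb =>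
    Finset.single_le_sum (fun a _ => (hCd0 a).le) (by
      rw [Finset.mem_product, Finset.mem_range, Finset.mem_range]
      exact ⟨by omega, by omega⟩)
  set Kx : ℝ := (d : ℝ) ^ 2 * (1 + (N₀ : ℝ) * (1 / 2 + σ₁)) with hK
  have hK0 : 0 ≤ Kx := by positivity
  obtain ⟨CK, hCK0, hCK⟩ := rpow_exp Kx
  set Cl' : ℝ := max 1 Cl with hCl'
  set Cd' : ℝ := max 1 Cd with hCd'
  set E : ℝ := Real.log (max 1 CK) + 10 with hE
  have h1Cl : 1 ≤ Cl' := le_max_left _ _
  have h1Cd : 1 ≤ Cd' := le_max_left _ _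
  have h1CK : 1 ≤ max 1 CK := le_max_left _ _
  have hE0 : 0 ≤ E := by
    have := Real.log_nonneg h1CK
    linarith
  have hEv : ∀ v : ℝ, (1 + |v|) ^ Kx * Real.exp (9 - v ^ 2) ≤ Real.exp E := by
    intro v
    rw [hE, Real.exp_add, Real.exp_log (by linarith)]
    calc (1 + |v|) ^ Kx * Real.exp (9 - v ^ 2) ≤ (CK * Real.exp |v|) * Real.exp (9 - v ^ 2) :=
          mul_le_mul_of_nonneg_right (hCK _ (abs_nonneg _)) (Real.exp_pos _).le
      _ = CK * Real.exp (|v| + (9 - v ^ 2)) := by rw [Real.exp_add]; ring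
      _ ≤ max 1 CK * Real.exp 10 := by
          refine mul_le_mul (le_max_right _ _) (Real.exp_le_exp.2 ?_) (Real.exp_pos _).le (by linarith)
          have : v ^ 2 = |v| ^ 2 := (sq_abs v).symm
          nlinarith [sq_nonneg (|v| - 1 / 2)]
  have hlCl := Real.log_nonneg h1Cl
  have hlCd := Real.log_nonneg h1Cd
  refine ⟨((d : ℝ) ^ 2 * Real.log Cl' + 2 * ((d : ℝ) ^ 2 * Real.log Cd') + E + Kx * JG) / 2, by
    have h3 := mul_nonneg hK0 JG_nonneg
    positivity, fun n N hn hN S α u q κ hrep hrs s hs T => ?_⟩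
  set Cij : Fin d → Fin d → ℝ := fun i j => q i j * ∏ l, (1 + ‖κ i j l‖) with hCij
  have hprod1 : ∀ i j, 1 ≤ ∏ l, (1 + ‖κ i j l‖) := fun i j => by
    refine Finset.one_le_prod fun l _ => ?_
    linarith [norm_nonneg (κ i j l)]
  have hC1 : ∀ i j, 1 ≤ Cij i j := fun i j => one_le_mul_of_one_le_of_one_le (hrs i j).one_le (hprod1 i j)
  have hCrow : ∀ i, 1 ≤ ∏ j, Cij i j := fun i => Finset.one_le_prod fun j _ => hC1 i j
  set P : ℝ := ∏ i, ∏ j, Cij i j with hP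
  have hP1 : 1 ≤ P := Finset.one_le_prod fun i _ => hCrow i
  have hP0 : 0 < P := by linarith
  have hlP : 0 ≤ Real.log P := Real.log_nonneg hP1
  have hlPs : Real.log P = ∑ i, ∑ j, Real.log (Cij i j) := by
    rw [hP, Real.log_prod fun i _ => by linarith [hCrow i]]
    exact Finset.sum_congr rfl fun i _ => Real.log_prod fun j _ => by linarith [hC1 i j]
  have hlC0 : ∀ i j, 0 ≤ Real.log (Cij i j) := fun i j => Real.log_nonneg (hC1 i j)
  have hlCle : ∀ i, Real.log (Cij i i) ≤ Real.log P := fun i => by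
    rw [hlPs]
    refine le_trans ?_ (Finset.single_le_sum (f := fun i => ∑ j, Real.log (Cij i j))
      (fun i _ => Finset.sum_nonneg fun j _ => hlC0 i j) (Finset.mem_univ i))
    exact Finset.single_le_sum (f := fun j => Real.log (Cij i j)) (fun j _ => hlC0 i j) (Finset.mem_univ i)
  -- the values at `1 + σ₁`
  set Di : Fin d → ℝ := fun i => ∑' x : VX K, ‖u i x‖ ^ 2 * Real.exp (-((1 + σ₁) * LV x)) with hDi
  have hself : ∀ i, RS (u i) (u i) (q i i) (κ i i) 1 := fun i => by simpa using hrs i i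
  have hDile : ∀ i, Di i ≤ Real.log Cd' + ε₂ * Real.log P := by
    intro i
    have h1 := hdiag (n i, N i i) S (α i) (u i) (q i i) (κ i i) (hrep i) (hself i)
    have hC0 : 0 < Cij i i := by linarith [hC1 i i]
    have h2 : Real.exp (Di i) ≤ Cd' * Cij i i ^ ε₂ :=
      h1.trans (mul_le_mul_of_nonneg_right ((hCdle _ _ (hn i) (hN i i)).trans (le_max_right _ _)) (by positivity))
    have h3 := Real.log_le_log (Real.exp_pos _) h2
    rw [Real.log_exp, Real.log_mul (by positivity) (by positivity), Real.log_rpow hC0] at h3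
    refine h3.trans ?_
    have := mul_le_mul_of_nonneg_left (hlCle i) hε₂0.le
    linarith
  have hDi0 : ∀ i, 0 ≤ Di i := fun i => tsum_nonneg fun x => by positivity
  set D : ℝ := d * ∑ i, Di i with hDdef
  have hD0 : 0 ≤ D := mul_nonneg hd0.le (Finset.sum_nonneg fun i _ => hDi0 i)
  have hDle : D ≤ (d : ℝ) ^ 2 * (Real.log Cd' + ε₂ * Real.log P) := by
    rw [hDdef]
    calc d * ∑ i, Di i ≤ d * ∑ _i : Fin d, (Real.log Cd' + ε₂ * Real.log P) :=
          mul_le_mul_of_nonneg_left (Finset.sum_le_sum fun i _ => hDile i) hd0.le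
      _ = _ := by
          rw [Finset.sum_const, Finset.card_univ, Fintype.card_fin, nsmul_eq_mul]
          ring
  have hsumU : ∀ σ : ℝ, 1 < σ → Summable fun x : VX K => ‖∑ i, u i x‖ ^ 2 * Real.exp (-(σ * LV x)) := by
    intro σ h1
    have h2 : Summable fun x : VX K => ∑ i, (d : ℝ) * (‖u i x‖ ^ 2 * Real.exp (-(σ * LV x))) :=
      summable_sum fun i _ => ((hrep i).summable σ h1).mul_left _
    refine Summable.of_nonneg_of_le (fun x => by positivity) (fun x => ?_) h2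
    rw [← Finset.mul_sum, ← Finset.sum_mul, ← mul_assoc]
    exact mul_le_mul_of_nonneg_right (sq_sum_le fun i => u i x) (Real.exp_pos _).le
  have hDU : ∑' x : VX K, ‖∑ i, u i x‖ ^ 2 * Real.exp (-((1 + σ₁) * LV x)) ≤ D := by
    have h1 : (1 : ℝ) < 1 + σ₁ := by linarith
    have h2 : Summable fun x : VX K => ∑ i, (d : ℝ) * (‖u i x‖ ^ 2 * Real.exp (-((1 + σ₁) * LV x))) :=
      summable_sum fun i _ => ((hrep i).summable _ h1).mul_left _
    calc ∑' x : VX K, ‖∑ i, u i x‖ ^ 2 * Real.exp (-((1 + σ₁) * LV x)) ≤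
        ∑' x : VX K, ∑ i, (d : ℝ) * (‖u i x‖ ^ 2 * Real.exp (-((1 + σ₁) * LV x))) := by
          refine (hsumU _ h1).tsum_le_tsum (fun x => ?_) h2
          rw [← Finset.mul_sum, ← Finset.sum_mul, ← mul_assoc]
          exact mul_le_mul_of_nonneg_right (sq_sum_le fun i => u i x) (Real.exp_pos _).le
      _ = D := by
          rw [Summable.tsum_finsetSum fun i _ => ((hrep i).summable _ h1).mul_left _, hDdef, Finset.mul_sum]
          refine Finset.sum_congr rfl fun i _ => ?_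
          rw [tsum_mul_left]
  -- the factors
  have hF := fun ij : Fin d × Fin d => hleft (N ij.1 ij.2) K (u ij.1) (u ij.2) (q ij.1 ij.2) (κ ij.1 ij.2)
    (if ij.1 = ij.2 then 1 else 0) (by split_ifs <;> omega) (hrs ij.1 ij.2) (hrep ij.1).summable (hrep ij.2).summable
  choose F hFd hFe hFgr _ hFl using hF
  set G : ℂ → ℂ := fun s => ∏ ij : Fin d × Fin d, F ij s with hG
  have hGd : Differentiable ℂ G := Differentiable.fun_finset_prod fun ij _ => hFd ij
  have hGgr : Gr G := gr_prod _ hFgr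
  have hsumm : ∑ ij : Fin d × Fin d, (if ij.1 = ij.2 then 1 else 0) = d := by
    rw [← Finset.univ_product_univ, Finset.sum_product]
    simp
  have hGe : ∀ s : ℂ, 1 < s.re → G s = (s - 1) ^ d * Complex.exp (DS (fun x : VX K => ‖∑ i, u i x‖ ^ 2) LV s) := by
    intro s hs
    simp only [hG]
    rw [Finset.prod_congr rfl fun ij _ => hFe ij s hs, Finset.prod_mul_distrib, Finset.prod_pow_eq_pow_sum, hsumm,
      ← Complex.exp_sum, ← Finset.univ_product_univ, Finset.sum_product]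
    congr 2
    exact logRS_sum (fun i => (hrep i).summable) hs
  set B : ℝ := Cl' ^ ((d : ℝ) ^ 2) * P ^ (1 / 2 + σ₁) * Real.exp D with hB
  have hB0 : 0 < B := by positivity
  have hBv : Real.log B = (d : ℝ) ^ 2 * Real.log Cl' + (1 / 2 + σ₁) * Real.log P + D := by
    rw [hB, Real.log_mul (by positivity) (by positivity), Real.log_mul (by positivity) (by positivity),
      Real.log_rpow hP0, Real.log_exp, Real.log_rpow (by linarith)]
  have hleft2 : ∀ t : ℝ, ‖G (((-σ₁ : ℝ) : ℂ) + t * I) / ((((-σ₁ : ℝ) : ℂ) + t * I) - 1) ^ d‖ ≤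
      B * (1 + |t|) ^ Kx := by
    intro t
    have ht1 : (1 : ℝ) ≤ 1 + |t| := by linarith [abs_nonneg t]
    have ht0 : (0 : ℝ) < 1 + |t| := by linarith
    have h1 : 1 ≤ ‖(((-σ₁ : ℝ) : ℂ) + t * I) - 1‖ := by
      have h2 := Complex.abs_re_le_norm ((((-σ₁ : ℝ) : ℂ) + t * I) - 1)
      have h3 : ((((-σ₁ : ℝ) : ℂ) + t * I) - 1).re = -σ₁ - 1 := by simp
      rw [h3, abs_of_neg (by linarith)] at h2
      linarith
    rw [norm_div, norm_pow]
    refine (div_le_self (norm_nonneg _) (one_le_pow₀ h1)).trans ?_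
    have h4 : ∀ ij : Fin d × Fin d, ‖F ij (((-σ₁ : ℝ) : ℂ) + t * I)‖ ≤
        (Cl' * (1 + |t|) ^ (1 + (N₀ : ℝ) * (1 / 2 + σ₁))) * (Cij ij.1 ij.2 ^ (1 / 2 + σ₁) *
          Real.exp (Di ij.1 / 2 + Di ij.2 / 2)) := by
      intro ij
      refine (hFl ij t).trans ?_
      have h5 : q ij.1 ij.2 * ∏ l, (1 + ‖κ ij.1 ij.2 l + t * I‖) ≤ Cij ij.1 ij.2 * (1 + |t|) ^ N₀ := by
        simp only [hCij]
        rw [mul_assoc]
        refine mul_le_mul_of_nonneg_left ?_ (by linarith [(hrs ij.1 ij.2).one_le])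
        calc ∏ l, (1 + ‖κ ij.1 ij.2 l + t * I‖) ≤ ∏ l, ((1 + ‖κ ij.1 ij.2 l‖) * (1 + |t|)) := by
              refine Finset.prod_le_prod (fun j _ => by positivity) fun l _ => ?_
              have h5 : ‖κ ij.1 ij.2 l + t * I‖ ≤ ‖κ ij.1 ij.2 l‖ + |t| := by
                refine (norm_add_le _ _).trans (le_of_eq ?_)
                simp
              nlinarith [norm_nonneg (κ ij.1 ij.2 l), abs_nonneg t,
                mul_nonneg (norm_nonneg (κ ij.1 ij.2 l)) (abs_nonneg t)]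
          _ = (∏ l, (1 + ‖κ ij.1 ij.2 l‖)) * (1 + |t|) ^ (N ij.1 ij.2) := by
              rw [Finset.prod_mul_distrib, Finset.prod_const, Finset.card_univ, Fintype.card_fin]
          _ ≤ _ := mul_le_mul_of_nonneg_left (pow_le_pow_right₀ ht1 (hN _ _)) (by linarith [hprod1 ij.1 ij.2])
      have h50 : 0 ≤ q ij.1 ij.2 * ∏ l, (1 + ‖κ ij.1 ij.2 l + t * I‖) :=
        mul_nonneg (by linarith [(hrs ij.1 ij.2).one_le]) (Finset.prod_nonneg fun j _ => by positivity)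
      have hCp : 0 < Cij ij.1 ij.2 := by linarith [hC1 ij.1 ij.2]
      have h6 : (q ij.1 ij.2 * ∏ l, (1 + ‖κ ij.1 ij.2 l + t * I‖)) ^ (1 / 2 + σ₁) ≤
          Cij ij.1 ij.2 ^ (1 / 2 + σ₁) * (1 + |t|) ^ ((N₀ : ℝ) * (1 / 2 + σ₁)) := by
        refine (Real.rpow_le_rpow h50 h5 (by positivity)).trans (le_of_eq ?_)
        rw [Real.mul_rpow hCp.le (by positivity), Real.rpow_mul (by positivity), Real.rpow_natCast]
      have h7 : (1 + |t|) ^ (if ij.1 = ij.2 then 1 else 0) ≤ 1 + |t| := by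
        split_ifs
        · simp
        · simpa using ht1
      calc Cl0 (N ij.1 ij.2) * (1 + |t|) ^ (if ij.1 = ij.2 then 1 else 0) *
            (q ij.1 ij.2 * ∏ l, (1 + ‖κ ij.1 ij.2 l + t * I‖)) ^ (1 / 2 + σ₁) *
            Real.exp ((∑' x : VX K, ‖u ij.1 x‖ ^ 2 * Real.exp (-((1 + σ₁) * LV x))) / 2 +
              (∑' x : VX K, ‖u ij.2 x‖ ^ 2 * Real.exp (-((1 + σ₁) * LV x))) / 2) ≤
          Cl' * (1 + |t|) * (Cij ij.1 ij.2 ^ (1 / 2 + σ₁) * (1 + |t|) ^ ((N₀ : ℝ) * (1 / 2 + σ₁))) *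
            Real.exp (Di ij.1 / 2 + Di ij.2 / 2) := by
            refine mul_le_mul_of_nonneg_right (mul_le_mul (mul_le_mul ((hClle _ (hN _ _)).trans (le_max_right _ _))
              h7 (by positivity) (by positivity)) h6 (Real.rpow_nonneg h50 _) (by positivity)) (Real.exp_pos _).le
        _ = _ := by
            rw [Real.rpow_add ht0, Real.rpow_one]
            ring
    have h8 : ∏ ij : Fin d × Fin d, ((Cl' * (1 + |t|) ^ (1 + (N₀ : ℝ) * (1 / 2 + σ₁))) *
        (Cij ij.1 ij.2 ^ (1 / 2 + σ₁) * Real.exp (Di ij.1 / 2 + Di ij.2 / 2))) = B * (1 + |t|) ^ Kx := by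
      rw [Finset.prod_mul_distrib, Finset.prod_const, Finset.card_univ, Fintype.card_prod, Fintype.card_fin,
        Finset.prod_mul_distrib, ← Real.exp_sum, Real.finset_prod_rpow _ _ fun ij _ => by linarith [hC1 ij.1 ij.2]]
      have e1 : ∏ ij : Fin d × Fin d, Cij ij.1 ij.2 = P := by
        rw [← Finset.univ_product_univ, Finset.prod_product]
      have e2 : ∑ ij : Fin d × Fin d, (Di ij.1 / 2 + Di ij.2 / 2) = D := by
        rw [← Finset.univ_product_univ, Finset.sum_product]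
        simp only [Finset.sum_add_distrib, Finset.sum_const, Finset.card_univ, Fintype.card_fin, nsmul_eq_mul]
        rw [hDdef, ← Finset.mul_sum, ← Finset.sum_div]
        ring
      rw [e1, e2, mul_pow, hB, hK]
      have e3 : ((1 + |t|) ^ (1 + (N₀ : ℝ) * (1 / 2 + σ₁))) ^ (d * d) =
          (1 + |t|) ^ ((d : ℝ) ^ 2 * (1 + (N₀ : ℝ) * (1 / 2 + σ₁))) := by
        rw [← Real.rpow_natCast, ← Real.rpow_mul ht0.le]
        congr 1
        push_cast
        ring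
      have e4 : Cl' ^ (d * d) = Cl' ^ ((d : ℝ) ^ 2) := by
        rw [← Real.rpow_natCast]
        congr 1
        push_cast
        ring
      rw [e3, e4]
      ring
    rw [← h8]
    simp only [hG]
    rw [norm_prod]
    exact Finset.prod_le_prod (fun ij _ => norm_nonneg _) fun ij _ => h4 ij
  haveI := Pool.Agent.U985.UK.countV K
  set c₀ : ℝ := Real.log B + D + E with hc₀
  have hc00 : 0 ≤ c₀ := by
    rw [hc₀, hBv]
    have := mul_nonneg (show 0 ≤ 1 / 2 + σ₁ by positivity) hlP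
    have := mul_nonneg (sq_nonneg (d : ℝ)) hlCl
    linarith
  have hmain := gaussB (d := fun x : VX K => ‖∑ i, u i x‖ ^ 2 / d) (L := LV) (c₀ := c₀ / d) (K := Kx / d)
    (fun x => by positivity) Pool.Agent.U828.DU.D.LV_nonneg'
    (fun σ hσ => ((hsumU σ hσ).div_const (d : ℝ)).congr fun x => by ring) (by positivity)
    (fun δ η ξ hη hηδ hδ => by
      have h1 := fdM (d := fun x : VX K => ‖∑ i, u i x‖ ^ 2) (L := LV) d (fun x => sq_nonneg _)
        Pool.Agent.U828.DU.D.LV_nonneg' hsumU hGd hGe hGgr hσ hσ1 hB0 hK0 hEv hleft2 hDU hc00 ξ hη hηδ hδ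
      have h2 : ∑' x : VX K, ‖∑ i, u i x‖ ^ 2 / d * (Real.exp (-((1 + δ - η) * LV x)) -
          Real.exp (-((1 + δ + η) * LV x))) * Real.cos (ξ * LV x) =
          (∑' x : VX K, ‖∑ i, u i x‖ ^ 2 * (Real.exp (-((1 + δ - η) * LV x)) -
          Real.exp (-((1 + δ + η) * LV x))) * Real.cos (ξ * LV x)) / d := by
        rw [← tsum_div_const]
        refine tsum_congr fun x => ?_
        ring
      rw [h2, div_le_iff₀ hd0]
      refine h1.trans (le_of_eq ?_)
      rw [← hc₀]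
      have hdd : (d : ℝ) * (c₀ / d) = c₀ := mul_div_cancel₀ _ hd0.ne'
      have hdk : (d : ℝ) * (Kx / d) = Kx := mul_div_cancel₀ _ hd0.ne'
      linear_combination (-η) * hdd - η * Real.log (1 + |ξ|) * hdk) hs T
  have h9 : ∑ x ∈ T, ‖∑ i, u i x‖ ^ 2 * LV x * Real.exp (-LV x) * Real.exp (-(LV x) ^ 2 / (2 * s ^ 2)) =
      d * ∑ x ∈ T, ‖∑ i, u i x‖ ^ 2 / d * LV x * Real.exp (-LV x) * Real.exp (-(LV x) ^ 2 / (2 * s ^ 2)) := by
    rw [Finset.mul_sum]
    refine Finset.sum_congr rfl fun x _ => ?_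
    field_simp
  rw [h9]
  refine (mul_le_mul_of_nonneg_left hmain hd0.le).trans ?_
  have h10 : (d : ℝ) * ((c₀ / d + Kx / d * JG) / 2 + √(Real.pi / 2) * s) =
      (c₀ + Kx * JG) / 2 + d * (√(Real.pi / 2) * s) := by
    have hdd : (d : ℝ) * (c₀ / d) = c₀ := mul_div_cancel₀ _ hd0.ne'
    have hdk : (d : ℝ) * (Kx / d) = Kx := mul_div_cancel₀ _ hd0.ne'
    linear_combination (1 / 2) * hdd + JG / 2 * hdk
  rw [h10, hc₀, hBv]
  have h11 : (d : ℝ) ^ 2 * ε₂ = ε / 2 := by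
    rw [hε₂]
    field_simp
  have h12 : D ≤ (d : ℝ) ^ 2 * Real.log Cd' + ε / 2 * Real.log P := by
    refine hDle.trans (le_of_eq ?_)
    rw [mul_add, ← mul_assoc, h11]
  nlinarith [mul_nonneg (sub_nonneg.2 hσε) hlP, mul_nonneg hσ.le hlP, mul_nonneg hε.le hlP]

end Pool.Agent.U985.UI
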