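import Pool.Agent.U985.UI.FormI
import Pool.Agent.U985.UK.Num

/-! Many places with small Hecke eigenvalues of an isobaric sum. -/

set_option autoImplicit false

namespace Pool.Agent.U985.UI

open MeasureTheory Filter Topology NumberField IsDedekindDomain
open Pool.Agent.N846.DU
open Pool.Agent.U985.UT (II II_scale)
open Pool.Agent.N753.LS (PP mem_PP)
open Pool.Agent.U985.UK (mert_gaussK' mem_PP' sum_set_le' count_of_massK')

/-- **Gaussian averages over the places**, for an isobaric sum -/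
theorem primeI (K : Type) [Field K] [NumberField K] (d n₀ N₀ : ℕ) (hd : 1 ≤ d) {ε : ℝ} (hε : 0 < ε) :
    ∃ A : ℝ, 0 ≤ A ∧ ∀ (n : Fin d → ℕ) (N : Fin d → Fin d → ℕ), (∀ i, n i ≤ n₀) → (∀ i j, N i j ≤ N₀) →
    ∀ (S : Finset (HeightOneSpectrum (𝓞 K))) (α : ∀ i, HeightOneSpectrum (𝓞 K) → Fin (n i) → ℂ)
      (u : Fin d → VX K → ℂ) (q : Fin d → Fin d → ℝ) (κ : ∀ i j, Fin (N i j) → ℂ),
      (∀ i, Rep (n i) S (α i) (u i)) →
      (∀ i j, RS (u i) (u j) (q i j) (κ i j) (if i = j then 1 else 0)) →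
      ∀ s : ℝ, 1 ≤ s → ∀ T : Finset (HeightOneSpectrum (𝓞 K)), (∀ v ∈ T, v ∉ S) →
        ∑ v ∈ T, ‖∑ i, ∑ j, α i v j‖ ^ 2 * (Real.log (Nv v) / Nv v) *
            Real.exp (-(Real.log (Nv v)) ^ 2 / (2 * s ^ 2)) ≤
          d * (√(Real.pi / 2) * s) + (1 / 4 + ε) * Real.log (∏ i, ∏ j, (q i j * ∏ l, (1 + ‖κ i j l‖))) + A := by
  obtain ⟨A, hA, hB⟩ := formI K d n₀ N₀ hd hε
  refine ⟨A, hA, fun n N hn hN S α u q κ hrep hrs s hs T hT => ?_⟩
  let e : HeightOneSpectrum (𝓞 K) ↪ VX K := ⟨fun v => (v, 0, 0), fun a b hab => by simpa using hab⟩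
  have h1 := hB n N hn hN S α u q κ hrep hrs s hs (T.map e)
  rw [Finset.sum_map] at h1
  refine le_trans (le_of_eq ?_) h1
  refine Finset.sum_congr rfl fun v hv => ?_
  change _ = ‖∑ i, u i (v, 0, 0)‖ ^ 2 * LV (v, 0, 0) * Real.exp (-LV (v, 0, 0)) *
    Real.exp (-(LV (v, 0, 0)) ^ 2 / (2 * s ^ 2))
  have h2 : LV ((v, 0, 0) : VX K) = Real.log (Nv v) := by simp [LV]
  have h3 : ∀ i, u i (v, 0, 0) = ∑ j, α i v j := by
    intro i
    rw [(hrep i).unram v (hT v hv) 0 0]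
    simp
  rw [h2, Finset.sum_congr rfl fun i _ => h3 i, Real.exp_neg, Real.exp_log (Pool.Agent.U828.DU.D.Nv_pos v)]
  ring

/-- **Many places with small eigenvalues**, for an isobaric sum -/
theorem manyI (K : Type) [Field K] [NumberField K] (d n₀ N₀ : ℕ) (hd : 1 ≤ d) {M x c : ℝ} (hM : 0 < M) (hx : 0 < x)
    (hD : 0 < M ^ 2 * II x - d * √(Real.pi / 2)) (hc : x / (4 * (M ^ 2 * II x - d * √(Real.pi / 2))) < c) :
    ∃ A δ : ℝ, 0 < A ∧ 0 < δ ∧ ∀ (n : Fin d → ℕ) (N : Fin d → Fin d → ℕ), (∀ i, n i ≤ n₀) → (∀ i j, N i j ≤ N₀) →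
    ∀ (S : Finset (HeightOneSpectrum (𝓞 K))) (α : ∀ i, HeightOneSpectrum (𝓞 K) → Fin (n i) → ℂ)
      (u : Fin d → VX K → ℂ) (q : Fin d → Fin d → ℝ) (κ : ∀ i j, Fin (N i j) → ℂ),
      (∀ i, Rep (n i) S (α i) (u i)) →
      (∀ i j, RS (u i) (u j) (q i j) (κ i j) (if i = j then 1 else 0)) →
      ∏ v ∈ S, Nv v ≤ ∏ i, ∏ j, q i j →
      ∀ P : ℝ, A * (∏ i, ∏ j, (q i j * ∏ l, (1 + ‖κ i j l‖))) ^ c ≤ P →
        ∃ T : Finset (HeightOneSpectrum (𝓞 K)), P ^ δ ≤ (T.card : ℝ) ∧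
          ∀ v ∈ T, Nv v ≤ P ∧ v ∉ S ∧ ‖∑ i, ∑ j, α i v j‖ < M := by
  classical
  set D : ℝ := M ^ 2 * II x - d * √(Real.pi / 2) with hDd
  have hd0 : (0 : ℝ) < d := by exact_mod_cast hd
  have hc0 : 0 < c := lt_trans (by positivity) hc
  have hM2 : 0 < M ^ 2 := by positivity
  have hII : 0 < II x := by
    have h1 : 0 ≤ (d : ℝ) * √(Real.pi / 2) := by positivity
    have h2 : 0 < M ^ 2 * II x := by linarith
    exact pos_of_mul_pos_right h2 hM2.le
  have hgap : 0 < D - x / (4 * c) := by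
    rw [div_lt_iff₀ (by positivity)] at hc
    rw [sub_pos, div_lt_iff₀ (by positivity)]
    linarith
  set gap : ℝ := D - x / (4 * c) with hgapd
  set η : ℝ := min 1 (gap / (4 * (M ^ 2 * II x))) with hη
  have hη0 : 0 < η := lt_min one_pos (by positivity)
  have hη1 : η ≤ 1 := min_le_left _ _
  have hηg : η * (M ^ 2 * II x) ≤ gap / 4 := by
    have h1 : η ≤ gap / (4 * (M ^ 2 * II x)) := min_le_right _ _
    calc η * (M ^ 2 * II x) ≤ gap / (4 * (M ^ 2 * II x)) * (M ^ 2 * II x) :=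
          mul_le_mul_of_nonneg_right h1 (by positivity)
      _ = gap / 4 := by field_simp
  set ε : ℝ := gap * c / (4 * x) with hε
  have hε0 : 0 < ε := by positivity
  set η' : ℝ := ε / M ^ 2 with hη'
  have hη'0 : 0 < η' := by positivity
  obtain ⟨A₂, hA2, hB2⟩ := primeI K d n₀ N₀ hd hε0
  obtain ⟨A₀, hA0, hG⟩ := mert_gaussK' K hη0 hη1
  obtain ⟨C₁, hC1, hbad⟩ := sum_set_le' K hη'0
  set Atot : ℝ := A₂ + M ^ 2 * C₁ + M ^ 2 * A₀ with hAtot
  have ha0 : 0 < gap / (4 * x) / M ^ 2 := by positivity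
  obtain ⟨P₀, δ, hP01, hδ, hP0⟩ := count_of_massK' K ha0 (Atot / M ^ 2)
  refine ⟨max P₀ (Real.exp x), δ, lt_of_lt_of_le (Real.exp_pos x) (le_max_right _ _), hδ,
    fun n N hn hN S α u q κ hrep hrs hS P hP => ?_⟩
  have hprod : ∀ i j, 1 ≤ ∏ l, (1 + ‖κ i j l‖) := fun i j => by
    refine Finset.one_le_prod fun l _ => ?_
    linarith [norm_nonneg (κ i j l)]
  have hq1 : ∀ i j, 1 ≤ q i j := fun i j => (hrs i j).one_le
  have hCi1 : ∀ i j, 1 ≤ q i j * ∏ l, (1 + ‖κ i j l‖) := fun i j =>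
    one_le_mul_of_one_le_of_one_le (hq1 i j) (hprod i j)
  set C : ℝ := ∏ i, ∏ j, (q i j * ∏ l, (1 + ‖κ i j l‖)) with hC
  have hCC1 : 1 ≤ C := Finset.one_le_prod fun i _ => Finset.one_le_prod fun j _ => hCi1 i j
  have hqC : ∏ i, ∏ j, q i j ≤ C := by
    refine Finset.prod_le_prod (fun i _ => Finset.prod_nonneg fun j _ => by linarith [hq1 i j]) fun i _ => ?_
    refine Finset.prod_le_prod (fun j _ => by linarith [hq1 i j]) fun j _ => ?_
    exact le_mul_of_one_le_right (by linarith [hq1 i j]) (hprod i j)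
  have hC0 : 0 < C := by linarith
  have hlC0 : 0 ≤ Real.log C := Real.log_nonneg hCC1
  have hCc : 1 ≤ C ^ c := Real.one_le_rpow hCC1 hc0.le
  have hAA0 : 0 < max P₀ (Real.exp x) := lt_of_lt_of_le (Real.exp_pos x) (le_max_right _ _)
  have hPA : max P₀ (Real.exp x) ≤ P := (le_mul_of_one_le_right hAA0.le hCc).trans hP
  have hP1 : 1 ≤ P := hP01.trans ((le_max_left _ _).trans hPA)
  have hPpos : 0 < P := by linarith
  have hlPx : x ≤ Real.log P := by
    rw [← Real.log_exp x]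
    exact Real.log_le_log (Real.exp_pos _) ((le_max_right _ _).trans hPA)
  have hlCP : c * Real.log C ≤ Real.log P := by
    rw [← Real.log_rpow hC0]
    refine Real.log_le_log (by positivity) ((le_mul_of_one_le_left (by positivity) ?_).trans hP)
    exact hP01.trans (le_max_left _ _)
  have hs : 1 ≤ Real.log P / x := by rwa [one_le_div hx]
  set s : ℝ := Real.log P / x with hsd
  have hs0 : 0 < s := by linarith
  have hLs : Real.log P / s = x := by
    have : Real.log P ≠ 0 := by linarith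
    rw [hsd]
    field_simp
  set T : Finset (HeightOneSpectrum (𝓞 K)) :=
    (PP K P).filter fun v => v ∉ S ∧ ‖∑ i, ∑ j, α i v j‖ < M with hT
  have hTP : T ⊆ PP K P := Finset.filter_subset _ _
  refine ⟨T, hP0 P ((le_max_left _ _).trans hPA) T hTP ?_, fun v hv => ?_⟩
  swap
  · have h1 := Finset.mem_filter.1 hv
    exact ⟨mem_PP'.1 h1.1, h1.2⟩
  set w : HeightOneSpectrum (𝓞 K) → ℝ := fun v => Real.log (Nv v) / Nv v with hw
  set g : HeightOneSpectrum (𝓞 K) → ℝ := fun v => Real.exp (-(Real.log (Nv v)) ^ 2 / (2 * s ^ 2)) with hg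
  have hw0 : ∀ v, 0 ≤ w v := fun v =>
    div_nonneg (Pool.Agent.U828.DU.D.log_Nv_pos v).le (Pool.Agent.U828.DU.D.Nv_pos v).le
  have hg0 : ∀ v, 0 ≤ g v := fun v => (Real.exp_pos _).le
  have hg1 : ∀ v, g v ≤ 1 := fun v => Real.exp_le_one_iff.2 (by
    rw [neg_div]
    exact neg_nonpos.2 (by positivity))
  have hwg : ∀ v, w v * g v ≤ w v := fun v => mul_le_of_le_one_right (hw0 v) (hg1 v)
  have hwg0 : ∀ v, 0 ≤ w v * g v := fun v => mul_nonneg (hw0 v) (hg0 v)
  -- the places in `S`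
  have hSw : ∑ v ∈ S, w v ≤ η' * Real.log C + C₁ := by
    refine (hbad S).trans ?_
    have h1 : ∑ v ∈ S, Real.log (Nv v) ≤ Real.log C := by
      rw [← Real.log_prod fun v _ => (Pool.Agent.U828.DU.D.Nv_pos v).ne']
      exact Real.log_le_log (Finset.prod_pos fun v _ => Pool.Agent.U828.DU.D.Nv_pos v) (hS.trans hqC)
    have := mul_le_mul_of_nonneg_left h1 hη'0.le
    linarith
  -- upper bound for the large eigenvalues
  set Lg : Finset (HeightOneSpectrum (𝓞 K)) :=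
    (PP K P).filter fun v => v ∉ S ∧ ¬ ‖∑ i, ∑ j, α i v j‖ < M with hLg
  have hup : M ^ 2 * ∑ v ∈ Lg, w v * g v ≤ d * (√(Real.pi / 2) * s) + (1 / 4 + ε) * Real.log C + A₂ := by
    refine le_trans ?_ (hB2 n N hn hN S α u q κ hrep hrs s hs Lg fun v hv => (Finset.mem_filter.1 hv).2.1)
    rw [Finset.mul_sum]
    refine Finset.sum_le_sum fun v hv => ?_
    have h2 := not_lt.1 (Finset.mem_filter.1 hv).2.2
    rw [mul_assoc]
    exact mul_le_mul_of_nonneg_right (pow_le_pow_left₀ hM.le h2 2) (hwg0 v)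
  have hlow : ∑ v ∈ PP K P, w v * g v ≤ ∑ v ∈ T, w v + ∑ v ∈ S, w v + ∑ v ∈ Lg, w v * g v := by
    have h1 : PP K P ⊆ T ∪ S ∪ Lg := by
      intro v hv
      simp only [Finset.mem_union, hT, hLg, Finset.mem_filter]
      by_cases h2 : v ∈ S
      · exact Or.inl (Or.inr h2)
      · by_cases h3 : ‖∑ i, ∑ j, α i v j‖ < M
        · exact Or.inl (Or.inl ⟨hv, h2, h3⟩)
        · exact Or.inr ⟨hv, h2, h3⟩
    refine (Finset.sum_le_sum_of_subset_of_nonneg h1 fun v _ _ => hwg0 v).trans ?_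
    have h2 : ∀ A B : Finset (HeightOneSpectrum (𝓞 K)), ∑ v ∈ A ∪ B, w v * g v ≤
        ∑ v ∈ A, w v * g v + ∑ v ∈ B, w v * g v := by
      intro A B
      rw [← Finset.sum_union_inter]
      have : 0 ≤ ∑ v ∈ A ∩ B, w v * g v := Finset.sum_nonneg fun v _ => hwg0 v
      linarith
    have h3 := h2 (T ∪ S) Lg
    have h4 := h2 T S
    have h5 : ∑ v ∈ T, w v * g v ≤ ∑ v ∈ T, w v := Finset.sum_le_sum fun v _ => hwg v
    have h6 : ∑ v ∈ S, w v * g v ≤ ∑ v ∈ S, w v := Finset.sum_le_sum fun v _ => hwg v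
    linarith
  have hmert := hG s hs0 P hP1
  rw [II_scale hs0, hLs] at hmert
  change (1 - η) * (s * II x) - A₀ ≤ ∑ v ∈ PP K P, w v * g v at hmert
  -- assemble
  have hmain : M ^ 2 * ((1 - η) * (s * II x) - A₀) -
      (d * (√(Real.pi / 2) * s) + (1 / 4 + ε) * Real.log C + A₂) - M ^ 2 * (η' * Real.log C + C₁) ≤
      M ^ 2 * ∑ v ∈ T, w v := by
    have h1 : M ^ 2 * ((1 - η) * (s * II x) - A₀) ≤
        M ^ 2 * (∑ v ∈ T, w v + (η' * Real.log C + C₁) + ∑ v ∈ Lg, w v * g v) :=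
      mul_le_mul_of_nonneg_left (by linarith) hM2.le
    nlinarith
  have hMη : M ^ 2 * η' = ε := by
    rw [hη']
    field_simp
  have hlPs : Real.log P = s * x := by
    rw [hsd]
    field_simp
  have h1 : (1 / 4 + 2 * ε) * Real.log C ≤ s * (x / (4 * c)) + s * (gap / 2) := by
    have h2 : Real.log C ≤ Real.log P / c := by
      rw [le_div_iff₀ hc0]
      linarith
    calc (1 / 4 + 2 * ε) * Real.log C ≤ (1 / 4 + 2 * ε) * (Real.log P / c) :=
          mul_le_mul_of_nonneg_left h2 (by positivity)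
      _ = _ := by
          rw [hlPs, hε]
          field_simp
          ring
  have h3 : gap / (4 * x) * Real.log P = s * (gap / 4) := by
    rw [hlPs]
    field_simp
  have h4 : s * (η * (M ^ 2 * II x)) ≤ s * (gap / 4) := mul_le_mul_of_nonneg_left hηg hs0.le
  have h5 : gap / (4 * x) * Real.log P - Atot ≤ M ^ 2 * ∑ v ∈ T, w v := by
    refine le_trans ?_ hmain
    have e1 : M ^ 2 * ((1 - η) * (s * II x) - A₀) -
        (d * (√(Real.pi / 2) * s) + (1 / 4 + ε) * Real.log C + A₂) - M ^ 2 * (η' * Real.log C + C₁) =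
        s * D - s * (η * (M ^ 2 * II x)) - Atot - (1 / 4 + ε + M ^ 2 * η') * Real.log C := by
      rw [hDd, hAtot]
      ring
    rw [e1, h3, hMη]
    have e3 : s * D = s * gap + s * (x / (4 * c)) := by
      rw [hgapd]
      ring
    linarith
  have h7 : M ^ 2 * (gap / (4 * x) / M ^ 2 * Real.log P - Atot / M ^ 2) = gap / (4 * x) * Real.log P - Atot := by
    field_simp
  exact le_of_mul_le_mul_left (h7.le.trans h5) hM2

/-- the condition for the exponent `c` -/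
def AdmD (d : ℕ) (M c : ℝ) : Prop := ∃ x : ℝ, 0 < x ∧ 0 < M ^ 2 * II x - d * √(Real.pi / 2) ∧
  x / (4 * (M ^ 2 * II x - d * √(Real.pi / 2))) < c

/-- scaling -/
theorem admD_of {d : ℕ} (hd : 1 ≤ d) {M c : ℝ} (hM : 0 < M) (h : Pool.Agent.U985.UK.Adm ((M / √(d : ℝ)) ^ 2) (c * d)) :
    AdmD d M c := by
  have hd0 : (0 : ℝ) < d := by exact_mod_cast hd
  obtain ⟨x, hx, h1, h2⟩ := h
  have h3 : (M / √(d : ℝ)) ^ 2 = M ^ 2 / d := by rw [div_pow, Real.sq_sqrt hd0.le]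
  rw [h3] at h1 h2
  have h4 : M ^ 2 * II x - d * √(Real.pi / 2) = d * (M ^ 2 / d * II x - √(Real.pi / 2)) := by
    field_simp
  refine ⟨x, hx, by rw [h4]; positivity, ?_⟩
  rw [h4]
  rw [div_lt_iff₀ (by positivity)] at h2 ⊢
  refine h2.trans_le (le_of_eq ?_)
  ring

/-- `M ≥ (16/9) √d` -/
theorem admD_M {d : ℕ} (hd : 1 ≤ d) {M : ℝ} (hM : 16 / 9 * √(d : ℝ) ≤ M) :
    AdmD d M (1 / (4 * M * (M - √(d : ℝ)))) := by
  have hd0 : (0 : ℝ) < d := by exact_mod_cast hd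
  have hs0 : 0 < √(d : ℝ) := Real.sqrt_pos.2 hd0
  have hM0 : 0 < M := by
    have : 0 < 16 / 9 * √(d : ℝ) := by positivity
    linarith
  have h1 : 16 / 9 ≤ M / √(d : ℝ) := by rwa [le_div_iff₀ hs0]
  have h2 := Pool.Agent.U985.UK.adm_n h1
  refine admD_of hd hM0 ?_
  have h5 : 0 < M - √(d : ℝ) := by linarith
  have h3 : 1 / (4 * (M / √(d : ℝ)) * (M / √(d : ℝ) - 1)) = 1 / (4 * M * (M - √(d : ℝ))) * d := by
    have h4 : (d : ℝ) = √(d : ℝ) ^ 2 := (Real.sq_sqrt hd0.le).symm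
    have h6 : 0 < M / √(d : ℝ) - 1 := by linarith
    rw [eq_comm, one_div_mul_eq_div, div_eq_div_iff (by positivity) (by positivity)]
    nth_rewrite 1 [h4]
    field_simp
  rwa [h3] at h2

theorem AdmD.mono {d : ℕ} {M c c' : ℝ} (h : AdmD d M c) (hc : c ≤ c') : AdmD d M c' := by
  obtain ⟨x, h1, h2, h3⟩ := h
  exact ⟨x, h1, h2, h3.trans_le hc⟩

/-- all ranks: `M = n`, `1 ≤ d ≤ n` -/
theorem admD_n {d n : ℕ} (hd : 1 ≤ d) (hdn : d ≤ n) (hn : 2 ≤ n) :
    AdmD d n (1 / (4 * (n : ℝ) * ((n : ℝ) - √(d : ℝ)))) := by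
  have hn' : (2 : ℝ) ≤ n := by exact_mod_cast hn
  by_cases h1 : 16 / 9 * √(d : ℝ) ≤ n
  · exact admD_M hd h1
  · have h2 : (d : ℝ) ≤ n := by exact_mod_cast hdn
    have h3 : (81 / 256 : ℝ) * n ^ 2 < d := by
      have h4 : (9 / 16 : ℝ) * n < √(d : ℝ) := by linarith
      have h5 := pow_lt_pow_left₀ h4 (by positivity) (n := 2) (by norm_num)
      rw [Real.sq_sqrt (by positivity)] at h5
      linarith
    have h4 : n ≤ 3 := by
      by_contra h5
      have h6 : (4 : ℝ) ≤ n := by exact_mod_cast (by omega : 4 ≤ n)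
      nlinarith
    have h5 : d = n ∧ (n = 2 ∨ n = 3) := by
      have h6 : n = 2 ∨ n = 3 := by omega
      refine ⟨?_, h6⟩
      rcases h6 with h6 | h6
      · subst h6
        have : (1 : ℝ) < d := by
          norm_num at h3
          linarith
        have : 1 < d := by exact_mod_cast this
        omega
      · subst h6
        have : (2 : ℝ) < d := by
          norm_num at h3
          linarith
        have : 2 < d := by exact_mod_cast this
        omega
    obtain ⟨h6, h7⟩ := h5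
    subst h6
    rcases h7 with h7 | h7
    · subst h7
      have h8 : AdmD 2 ((2 : ℕ) : ℝ) 0.205 := by
        refine admD_of (by norm_num) (by norm_num) ?_
        rw [div_pow, Real.sq_sqrt (by positivity)]
        have h9 := Pool.Agent.U985.UK.adm2
        norm_num at h9 ⊢
        exact h9
      refine h8.mono ?_
      have h9 : (1.414 : ℝ) < √((2 : ℕ) : ℝ) := Real.lt_sqrt_of_sq_lt (by norm_num)
      have h10 : √((2 : ℕ) : ℝ) < 2 := by
        rw [Real.sqrt_lt' (by norm_num)]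
        norm_num
      rw [le_div_iff₀ (by push_cast at h10 ⊢; nlinarith)]
      push_cast at h9 h10 ⊢
      linarith
    · subst h7
      have h8 : AdmD 3 ((3 : ℕ) : ℝ) 0.065 := by
        refine admD_of (by norm_num) (by norm_num) ?_
        rw [div_pow, Real.sq_sqrt (by positivity)]
        have h9 : Pool.Agent.U985.UK.Adm 3 0.195 := by
          refine Pool.Agent.U985.UK.adm_of (by norm_num) (by norm_num) (x := 1.2) (by norm_num)
            (Pool.Agent.U985.UK.II_ge9 (by norm_num)) ?_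
          norm_num
        norm_num at h9 ⊢
        exact h9
      refine h8.mono ?_
      have h9 : (1.732 : ℝ) < √((3 : ℕ) : ℝ) := Real.lt_sqrt_of_sq_lt (by norm_num)
      have h10 : √((3 : ℕ) : ℝ) < 3 := by
        rw [Real.sqrt_lt' (by norm_num)]
        norm_num
      rw [le_div_iff₀ (by push_cast at h10 ⊢; nlinarith)]
      push_cast at h9 h10 ⊢
      linarith

/-- for every `M > √d` there is an admissible exponent -/
theorem admD_gt {d : ℕ} (hd : 1 ≤ d) {M : ℝ} (hM : √(d : ℝ) < M) : ∃ c : ℝ, 0 < c ∧ AdmD d M c := by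
  have hd0 : (0 : ℝ) < d := by exact_mod_cast hd
  have hs0 : 0 < √(d : ℝ) := Real.sqrt_pos.2 hd0
  have h1 : 1 < M / √(d : ℝ) := by rwa [one_lt_div hs0]
  obtain ⟨c, hc, h2⟩ := Pool.Agent.U985.UK.adm_gt (one_lt_pow₀ h1 (two_ne_zero))
  refine ⟨c / d, by positivity, admD_of hd (by linarith) ?_⟩
  rwa [div_mul_cancel₀ _ hd0.ne']

end Pool.Agent.U985.UI
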