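import Pool.Agent.U985.UT.Three

/-! An upper bound for the logarithmic derivative of an `L`-function with a pole of order `m` at `s = 1` and
nonnegative coefficients of the logarithm, from the three lines theorem. -/

set_option autoImplicit false

namespace Pool.Agent.U985.UI

open Complex MeasureTheory Filter Topology
open Complex.HadamardThreeLines
open Pool.Agent.W189.TP (DS)
open Pool.Agent.U985.UT (DS_re norm_exp_neg_DS norm_gauss)

section fd

variable {X : Type} {d L : X → ℝ}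

theorem fdM (m : ℕ) (hd : ∀ x, 0 ≤ d x) (hL : ∀ x, 0 ≤ L x)
    (hs : ∀ σ : ℝ, 1 < σ → Summable fun x => d x * Real.exp (-(σ * L x)))
    {G : ℂ → ℂ} (hG : Differentiable ℂ G)
    (hGe : ∀ s : ℂ, 1 < s.re → G s = (s - 1) ^ m * cexp (DS d L s))
    (hgr : ∀ a b : ℝ, ∃ C A : ℝ, ∀ s : ℂ, a ≤ s.re → s.re ≤ b → ‖G s‖ ≤ C * (1 + |s.im|) ^ A)
    {σ₁ B K E D : ℝ} (hσ : 0 < σ₁) (hσ1 : σ₁ ≤ 1) (hB : 0 < B) (hK : 0 ≤ K)
    (hE : ∀ v : ℝ, (1 + |v|) ^ K * Real.exp (9 - v ^ 2) ≤ Real.exp E)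
    (hleft : ∀ t : ℝ, ‖G (((-σ₁ : ℝ) : ℂ) + t * I) / ((((-σ₁ : ℝ) : ℂ) + t * I) - 1) ^ m‖ ≤ B * (1 + |t|) ^ K)
    (hD : ∑' x, d x * Real.exp (-((1 + σ₁) * L x)) ≤ D)
    (hBD : 0 ≤ Real.log B + D + E)
    {δ η : ℝ} (ξ : ℝ) (hη : 0 < η) (hηδ : η < δ) (hδ : δ ≤ 1) :
    ∑' x, d x * (Real.exp (-((1 + δ - η) * L x)) - Real.exp (-((1 + δ + η) * L x))) * Real.cos (ξ * L x) ≤
      η * (Real.log B + D + E + K * Real.log (1 + |ξ|)) + m * (2 * δ * η / ((δ - η) ^ 2 + ξ ^ 2)) := by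
  have hδ0 : 0 < δ := hη.trans hηδ
  set s₀ : ℂ := ((1 + δ : ℝ) : ℂ) + ξ * I with hs₀
  have hs₀re : s₀.re = 1 + δ := by simp [hs₀]
  have hs₀im : s₀.im = ξ := by simp [hs₀]
  set f : ℂ → ℂ := fun s => G s * cexp (-DS d L (((2 + 2 * δ : ℝ) : ℂ) - s)) * ((((1 + 2 * δ : ℝ) : ℂ) - s)⁻¹) ^ m *
    cexp ((s - s₀) ^ 2) with hf
  set a : ℝ := Real.exp (Real.log B + D + E + K * Real.log (1 + |ξ|)) with ha
  have hξ1 : (1 : ℝ) ≤ 1 + |ξ| := by linarith [abs_nonneg ξ]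
  have ha1 : 1 ≤ a := by
    rw [ha]
    refine Real.one_le_exp ?_
    have := mul_nonneg hK (Real.log_nonneg hξ1)
    linarith
  have hlu : -σ₁ < 1 + δ := by linarith
  have hDe : ∀ σ : ℝ, 1 + σ₁ ≤ σ → ∑' x, d x * Real.exp (-(σ * L x)) ≤ D := by
    intro σ h1
    refine le_trans ?_ hD
    refine (hs σ (by linarith)).tsum_le_tsum (fun x => ?_) (hs _ (by linarith))
    exact mul_le_mul_of_nonneg_left (Real.exp_le_exp.2 (by nlinarith [hL x])) (hd x)
  -- differentiability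
  have hdiffDS : DifferentiableOn ℂ (DS d L) {s : ℂ | 1 < s.re} :=
    Pool.Agent.W189.TP.DS_diff hL fun t ht => (hs t ht).congr fun x => by rw [abs_of_nonneg (hd x)]
  have hopen : IsOpen {s : ℂ | 1 < s.re} := isOpen_lt continuous_const Complex.continuous_re
  have hne : ∀ s : ℂ, s.re ≤ 1 + δ → ((1 + 2 * δ : ℝ) : ℂ) - s ≠ 0 := by
    intro s hs1 h0
    have := congrArg Complex.re h0
    rw [Complex.sub_re, Complex.ofReal_re, Complex.zero_re] at this
    linarith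
  have hfd : ∀ s : ℂ, s.re ≤ 1 + δ → DifferentiableAt ℂ f s := by
    intro s hs1
    have h1 : DifferentiableAt ℂ (fun s => DS d L (((2 + 2 * δ : ℝ) : ℂ) - s)) s := by
      have h2 : DifferentiableAt ℂ (DS d L) (((2 + 2 * δ : ℝ) : ℂ) - s) := by
        refine (hdiffDS.differentiableAt (hopen.mem_nhds ?_))
        show 1 < (((2 + 2 * δ : ℝ) : ℂ) - s).re
        rw [Complex.sub_re, Complex.ofReal_re]
        linarith
      exact DifferentiableAt.comp s h2 (by fun_prop)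
    have h3 : DifferentiableAt ℂ (fun s => (((1 + 2 * δ : ℝ) : ℂ) - s)⁻¹) s :=
      DifferentiableAt.inv (by fun_prop) (hne s hs1)
    exact (((hG s).mul h1.neg.cexp).mul (h3.pow m)).mul (by fun_prop)
  have hdc : DiffContOnCl ℂ f (verticalStrip (-σ₁) (1 + δ)) := by
    refine DifferentiableOn.diffContOnCl ?_
    intro s hs1
    have h1 : s ∈ verticalClosedStrip (-σ₁) (1 + δ) := by
      have h2 : closure (verticalStrip (-σ₁) (1 + δ)) ⊆ verticalClosedStrip (-σ₁) (1 + δ) := by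
        refine closure_minimal ?_ ?_
        · intro z hz
          exact ⟨hz.1.le, hz.2.le⟩
        · exact isClosed_Icc.preimage Complex.continuous_re
      exact h2 hs1
    exact (hfd s h1.2).differentiableWithinAt
  -- boundedness
  have hbdd : BddAbove ((norm ∘ f) '' verticalClosedStrip (-σ₁) (1 + δ)) := by
    obtain ⟨C1, A1, hCA⟩ := hgr (-σ₁) (1 + δ)
    obtain ⟨C2, hC20, hC2⟩ := Pool.Agent.N846.DT.rpow_exp (|A1|)
    refine ⟨(|C1| * C2 * Real.exp (∑' x, d x * Real.exp (-((1 + δ) * L x))) * (1 / δ) ^ m) *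
      Real.exp (9 + |ξ| + 1), ?_⟩
    rintro _ ⟨s, ⟨hs1, hs2⟩, rfl⟩
    simp only [Function.comp_apply, hf]
    have hs1' : -σ₁ ≤ s.re := hs1
    have hs2' : s.re ≤ 1 + δ := hs2
    rw [norm_mul, norm_mul, norm_mul, norm_gauss, hs₀re, hs₀im, norm_pow, norm_inv]
    have h2 := hCA s hs1' hs2'
    have hone : (1 : ℝ) ≤ 1 + |s.im| := by linarith [abs_nonneg s.im]
    have h4 : ‖G s‖ ≤ |C1| * (C2 * Real.exp |s.im|) := by
      refine h2.trans (mul_le_mul (le_abs_self _) ?_ (Real.rpow_nonneg (by linarith) _) (abs_nonneg _))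
      exact (Real.rpow_le_rpow_of_exponent_le hone (le_abs_self _)).trans (hC2 _ (abs_nonneg _))
    have h5 : ‖cexp (-DS d L (((2 + 2 * δ : ℝ) : ℂ) - s))‖ ≤
        Real.exp (∑' x, d x * Real.exp (-((1 + δ) * L x))) := by
      refine norm_exp_neg_DS hd hL ?_ (hs _ (by linarith))
      rw [Complex.sub_re, Complex.ofReal_re]
      linarith
    have h6 : ‖((1 + 2 * δ : ℝ) : ℂ) - s‖⁻¹ ≤ 1 / δ := by
      rw [one_div]
      refine inv_anti₀ hδ0 ?_
      refine le_trans ?_ (Complex.re_le_norm _)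
      rw [Complex.sub_re, Complex.ofReal_re]
      linarith
    have h7 : Real.exp ((s.re - (1 + δ)) ^ 2 - (s.im - ξ) ^ 2) * Real.exp |s.im| ≤ Real.exp (9 + |ξ| + 1) := by
      rw [← Real.exp_add]
      refine Real.exp_le_exp.2 ?_
      have h8 : |s.im| ≤ |s.im - ξ| + |ξ| := by
        have := abs_add_le (s.im - ξ) ξ
        rwa [sub_add_cancel] at this
      have h9 : (s.im - ξ) ^ 2 = |s.im - ξ| ^ 2 := (sq_abs _).symm
      have h10 : (s.re - (1 + δ)) ^ 2 ≤ 9 := by nlinarith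
      nlinarith [sq_nonneg (|s.im - ξ| - 1 / 2)]
    calc ‖G s‖ * ‖cexp (-DS d L (((2 + 2 * δ : ℝ) : ℂ) - s))‖ * (‖((1 + 2 * δ : ℝ) : ℂ) - s‖⁻¹) ^ m *
          Real.exp ((s.re - (1 + δ)) ^ 2 - (s.im - ξ) ^ 2) ≤
        (|C1| * (C2 * Real.exp |s.im|)) * Real.exp (∑' x, d x * Real.exp (-((1 + δ) * L x))) * (1 / δ) ^ m *
          Real.exp ((s.re - (1 + δ)) ^ 2 - (s.im - ξ) ^ 2) := by
          gcongr
      _ = (|C1| * C2 * Real.exp (∑' x, d x * Real.exp (-((1 + δ) * L x))) * (1 / δ) ^ m) *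
          (Real.exp ((s.re - (1 + δ)) ^ 2 - (s.im - ξ) ^ 2) * Real.exp |s.im|) := by ring
      _ ≤ _ := mul_le_mul_of_nonneg_left h7 (by positivity)
  -- the left edge
  have hle : ∀ s ∈ Complex.re ⁻¹' {(-σ₁ : ℝ)}, ‖f s‖ ≤ a := by
    intro s hs1
    have hre : s.re = -σ₁ := hs1
    set t : ℝ := s.im with ht
    have hst : s = ((-σ₁ : ℝ) : ℂ) + t * I := by
      apply Complex.ext
      · simp [hre]
      · simp [ht]
    have hs1ne : s - 1 ≠ 0 := by
      intro h0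
      have := congrArg Complex.re h0
      rw [Complex.sub_re, hre, Complex.one_re, Complex.zero_re] at this
      linarith
    have h1 : f s = (G s / (s - 1) ^ m) * cexp (-DS d L (((2 + 2 * δ : ℝ) : ℂ) - s)) *
        ((s - 1) * (((1 + 2 * δ : ℝ) : ℂ) - s)⁻¹) ^ m * cexp ((s - s₀) ^ 2) := by
      simp only [hf]
      rw [mul_pow]
      have h9 : (s - 1) ^ m ≠ 0 := pow_ne_zero _ hs1ne
      generalize (((1 + 2 * δ : ℝ) : ℂ) - s)⁻¹ ^ m = w
      field_simp
    rw [h1, norm_mul, norm_mul, norm_mul, norm_gauss, hs₀re, hs₀im, hre]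
    have h2 : ‖G s / (s - 1) ^ m‖ ≤ B * (1 + |t|) ^ K := by
      have := hleft t
      rwa [← hst] at this
    have h3 : ‖cexp (-DS d L (((2 + 2 * δ : ℝ) : ℂ) - s))‖ ≤ Real.exp D := by
      refine (norm_exp_neg_DS (σ := 2 + 2 * δ + σ₁) hd hL ?_ (hs _ (by linarith))).trans ?_
      · rw [Complex.sub_re, Complex.ofReal_re, hre]
        linarith
      · exact Real.exp_le_exp.2 (hDe _ (by linarith))
    have h4 : ‖((s - 1) * (((1 + 2 * δ : ℝ) : ℂ) - s)⁻¹) ^ m‖ ≤ 1 := by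
      rw [norm_pow]
      refine pow_le_one₀ (norm_nonneg _) ?_
      rw [norm_mul, norm_inv]
      have h5 : 0 < ‖((1 + 2 * δ : ℝ) : ℂ) - s‖ := norm_pos_iff.2 (hne s (by linarith))
      rw [← div_eq_mul_inv, div_le_one h5]
      rw [Complex.norm_eq_sqrt_sq_add_sq, Complex.norm_eq_sqrt_sq_add_sq]
      refine Real.sqrt_le_sqrt ?_
      simp only [Complex.sub_re, Complex.sub_im, Complex.one_re, Complex.one_im, Complex.ofReal_re,
        Complex.ofReal_im, hre]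
      nlinarith
    have h5 : Real.exp ((-σ₁ - (1 + δ)) ^ 2 - (t - ξ) ^ 2) ≤ Real.exp (9 - (t - ξ) ^ 2) := by
      refine Real.exp_le_exp.2 ?_
      nlinarith
    have h6 : (1 + |t|) ^ K ≤ (1 + |ξ|) ^ K * (1 + |t - ξ|) ^ K := by
      rw [← Real.mul_rpow (by positivity) (by positivity)]
      refine Real.rpow_le_rpow (by positivity) ?_ hK
      have := abs_add_le (t - ξ) ξ
      rw [sub_add_cancel] at this
      nlinarith [abs_nonneg (t - ξ), abs_nonneg ξ, mul_nonneg (abs_nonneg ξ) (abs_nonneg (t - ξ))]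
    have h7 : a = B * Real.exp D * (1 + |ξ|) ^ K * Real.exp E := by
      rw [ha, Real.exp_add, Real.exp_add, Real.exp_add, Real.exp_log hB, Real.rpow_def_of_pos (by linarith)]
      rw [mul_comm K]
      ring
    calc ‖G s / (s - 1) ^ m‖ * ‖cexp (-DS d L (((2 + 2 * δ : ℝ) : ℂ) - s))‖ *
          ‖((s - 1) * (((1 + 2 * δ : ℝ) : ℂ) - s)⁻¹) ^ m‖ * Real.exp ((-σ₁ - (1 + δ)) ^ 2 - (t - ξ) ^ 2) ≤
        (B * ((1 + |ξ|) ^ K * (1 + |t - ξ|) ^ K)) * Real.exp D * 1 * Real.exp (9 - (t - ξ) ^ 2) := by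
          gcongr
          exact h2.trans (mul_le_mul_of_nonneg_left h6 hB.le)
      _ = B * Real.exp D * (1 + |ξ|) ^ K * ((1 + |t - ξ|) ^ K * Real.exp (9 - (t - ξ) ^ 2)) := by ring
      _ ≤ B * Real.exp D * (1 + |ξ|) ^ K * Real.exp E :=
          mul_le_mul_of_nonneg_left (hE _) (by positivity)
      _ = a := h7.symm
  -- the right edge
  have hri : ∀ s ∈ Complex.re ⁻¹' {(1 + δ : ℝ)}, ‖f s‖ ≤ 1 := by
    intro s hs1
    have hre : s.re = 1 + δ := hs1
    set t : ℝ := s.im with ht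
    have hst : s = ((1 + δ : ℝ) : ℂ) + t * I := by
      apply Complex.ext
      · simp [hre]
      · simp [ht]
    have hst2 : ((2 + 2 * δ : ℝ) : ℂ) - s = ((1 + δ : ℝ) : ℂ) + ((-t : ℝ) : ℂ) * I := by
      rw [hst]
      push_cast
      ring
    have h1 : (DS d L (((2 + 2 * δ : ℝ) : ℂ) - s)).re = (DS d L s).re := by
      rw [hst2, DS_re hd _ _ (hs _ (by linarith)), hst, DS_re hd _ _ (hs _ (by linarith))]
      refine tsum_congr fun x => ?_
      rw [neg_mul, Real.cos_neg]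
    have h2 : ‖((1 + 2 * δ : ℝ) : ℂ) - s‖ = ‖s - 1‖ := by
      rw [Complex.norm_eq_sqrt_sq_add_sq, Complex.norm_eq_sqrt_sq_add_sq]
      congr 1
      simp only [Complex.sub_re, Complex.sub_im, Complex.one_re, Complex.one_im, Complex.ofReal_re,
        Complex.ofReal_im, hre]
      ring
    have h3 : 0 < ‖s - 1‖ := by
      rw [← h2]
      exact norm_pos_iff.2 (hne s (by linarith))
    simp only [hf]
    rw [hGe s (by linarith), norm_mul, norm_mul, norm_mul, norm_mul, norm_pow, norm_pow, norm_gauss, hs₀re, hs₀im,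
      hre, norm_inv, h2, Complex.norm_exp, Complex.norm_exp, Complex.neg_re, h1]
    have h4 : ‖s - 1‖ ^ m * Real.exp (DS d L s).re * Real.exp (-(DS d L s).re) * ‖s - 1‖⁻¹ ^ m *
        Real.exp ((1 + δ - (1 + δ)) ^ 2 - (t - ξ) ^ 2) = Real.exp (-(t - ξ) ^ 2) := by
      rw [mul_assoc (‖s - 1‖ ^ m), ← Real.exp_add, add_neg_cancel, Real.exp_zero, mul_one, ← mul_pow,
        mul_inv_cancel₀ h3.ne', one_pow, one_mul]
      congr 1
      ring
    rw [h4]
    exact Real.exp_le_one_iff.2 (by nlinarith [sq_nonneg (t - ξ)])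
  -- the three lines theorem
  set z : ℂ := ((1 + δ - η : ℝ) : ℂ) + ξ * I with hz
  have hzre : z.re = 1 + δ - η := by simp [hz]
  have hzim : z.im = ξ := by simp [hz]
  have h3l := norm_le_interp_of_mem_verticalClosedStrip' (z := z) hlu (by
    constructor
    · show -σ₁ ≤ z.re
      rw [hzre]; linarith
    · show z.re ≤ 1 + δ
      rw [hzre]; linarith) hdc hbdd hle hri
  rw [Real.one_rpow, mul_one] at h3l
  have hexp : a ^ (1 - (z.re - -σ₁) / (1 + δ - -σ₁)) ≤ a ^ η := by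
    refine Real.rpow_le_rpow_of_exponent_le ha1 ?_
    rw [hzre]
    have h1 : 0 < 1 + δ - -σ₁ := by linarith
    rw [sub_le_iff_le_add, ← sub_le_iff_le_add', le_div_iff₀ h1]
    nlinarith
  have hfz := h3l.trans hexp
  have hz2 : ((2 + 2 * δ : ℝ) : ℂ) - z = ((1 + δ + η : ℝ) : ℂ) + ((-ξ : ℝ) : ℂ) * I := by
    rw [hz]
    push_cast
    ring
  have hz1 : 0 < (δ - η) ^ 2 + ξ ^ 2 := by nlinarith [sq_nonneg ξ, sub_pos.2 hηδ]
  have hz3 : 0 < (δ + η) ^ 2 + ξ ^ 2 := by nlinarith [sq_nonneg ξ]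
  have hn1 : ‖z - 1‖ = √((δ - η) ^ 2 + ξ ^ 2) := by
    rw [Complex.norm_eq_sqrt_sq_add_sq]
    congr 1
    simp only [Complex.sub_re, Complex.sub_im, Complex.one_re, Complex.one_im, hzre, hzim]
    ring
  have hn2 : ‖((1 + 2 * δ : ℝ) : ℂ) - z‖ = √((δ + η) ^ 2 + ξ ^ 2) := by
    rw [Complex.norm_eq_sqrt_sq_add_sq]
    congr 1
    simp only [Complex.sub_re, Complex.sub_im, Complex.ofReal_re, Complex.ofReal_im, hzre, hzim]
    ring
  have hnorm : ‖f z‖ = √((δ - η) ^ 2 + ξ ^ 2) ^ m * Real.exp ((DS d L z).re) *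
      Real.exp (-(DS d L (((2 + 2 * δ : ℝ) : ℂ) - z)).re) * (√((δ + η) ^ 2 + ξ ^ 2))⁻¹ ^ m * Real.exp (η ^ 2) := by
    simp only [hf]
    rw [hGe z (by rw [hzre]; linarith), norm_mul, norm_mul, norm_mul, norm_mul, norm_pow, norm_pow, norm_gauss,
      hs₀re, hs₀im, hzre, hzim, norm_inv, hn1, hn2, Complex.norm_exp, Complex.norm_exp, Complex.neg_re]
    congr 2
    ring
  rw [hnorm] at hfz
  have hsq1 : 0 < √((δ - η) ^ 2 + ξ ^ 2) := Real.sqrt_pos.2 hz1
  have hsq2 : 0 < √((δ + η) ^ 2 + ξ ^ 2) := Real.sqrt_pos.2 hz3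
  have hlog := Real.log_le_log (by positivity) hfz
  rw [Real.log_mul (by positivity) (by positivity), Real.log_mul (by positivity) (by positivity),
    Real.log_mul (by positivity) (by positivity), Real.log_mul (by positivity) (by positivity),
    Real.log_pow, Real.log_pow, Real.log_exp, Real.log_exp, Real.log_exp, Real.log_inv, Real.log_sqrt hz1.le,
    Real.log_sqrt hz3.le, Real.log_rpow (by linarith), ha, Real.log_exp] at hlog
  have hlog2 : Real.log ((δ + η) ^ 2 + ξ ^ 2) - Real.log ((δ - η) ^ 2 + ξ ^ 2) ≤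
      4 * δ * η / ((δ - η) ^ 2 + ξ ^ 2) := by
    rw [← Real.log_div hz3.ne' hz1.ne']
    refine (Real.log_le_sub_one_of_pos (by positivity)).trans (le_of_eq ?_)
    field_simp
    ring
  have hDz : (DS d L z).re = ∑' x, d x * Real.exp (-((1 + δ - η) * L x)) * Real.cos (ξ * L x) := by
    rw [hz, DS_re hd _ _ (hs _ (by linarith))]
  have hDz2 : (DS d L (((2 + 2 * δ : ℝ) : ℂ) - z)).re =
      ∑' x, d x * Real.exp (-((1 + δ + η) * L x)) * Real.cos (ξ * L x) := by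
    rw [hz2, DS_re hd _ _ (hs _ (by linarith))]
    refine tsum_congr fun x => ?_
    rw [neg_mul, Real.cos_neg]
  have hsc : ∀ σ : ℝ, 1 < σ → Summable fun x => d x * Real.exp (-(σ * L x)) * Real.cos (ξ * L x) := by
    intro σ h1
    refine Summable.of_norm_bounded (hs σ h1) fun x => ?_
    rw [norm_mul, norm_mul, Real.norm_of_nonneg (hd x), Real.norm_of_nonneg (Real.exp_pos _).le]
    have := Real.abs_cos_le_one (ξ * L x)
    rw [Real.norm_eq_abs]
    exact mul_le_of_le_one_right (mul_nonneg (hd x) (Real.exp_pos _).le) this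
  have hsum : ∑' x, d x * (Real.exp (-((1 + δ - η) * L x)) - Real.exp (-((1 + δ + η) * L x))) *
      Real.cos (ξ * L x) = (DS d L z).re - (DS d L (((2 + 2 * δ : ℝ) : ℂ) - z)).re := by
    rw [hDz, hDz2, ← (hsc _ (by linarith)).tsum_sub (hsc _ (by linarith))]
    refine tsum_congr fun x => ?_
    ring
  rw [hsum]
  have h4 : 2 * δ * η / ((δ - η) ^ 2 + ξ ^ 2) = (4 * δ * η / ((δ - η) ^ 2 + ξ ^ 2)) / 2 := by ring
  rw [h4]
  have h5 := mul_le_mul_of_nonneg_left hlog2 (Nat.cast_nonneg m : (0 : ℝ) ≤ m)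
  nlinarith [sq_nonneg η]

end fd

end Pool.Agent.U985.UI
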